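import Pool.Agent.Q70.BohrThick

/-!
# Joint return times along `t ^ (3/2)` and `α t ^ (3/2) + t` are not thick

For every real `α` (in particular for every irrational `α`) there is a set `E` of positive upper
density (the multiples `N j` of a fixed even number `N` for which `j α` is within `1/32` of an
integer) and a length `L` such that every block `a, a + 1, …, a + L` of consecutive integers
contains an integer outside `R_{f₁}(E) ∩ R_{f₂}(E)`, `f₁(t) = t ^ (3/2)`,
`f₂(t) = α t ^ (3/2) + t`.
-/

open Q70.BohrThick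

/-- **Disproof, for every `α`.**  For every real `α` some set `E ⊆ {1, 2, …}` of positive upper
density has a joint return set without intervals of more than `L` consecutive integers; in
particular the statement `R_{f₁}(E) ∩ R_{f₂}(E)` is thick for all irrational `α` and all `E` of
positive upper density is false. -/
theorem Pool.Agent.Results.MP_df75a5_an.NotThick.result :
    (∀ α : ℝ, ∃ E : Set ℕ, (∀ m ∈ E, 1 ≤ m) ∧ 0 < upperDensity E ∧
      ∃ L : ℕ, ∀ a : ℕ, ∃ i ≤ L, a + i ∉
        returnSet (fun t => t ^ (3 / 2 : ℝ)) E ∩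
          returnSet (fun t => α * t ^ (3 / 2 : ℝ) + t) E) ∧
    ¬ ∀ α : ℝ, Irrational α → ∀ E : Set ℕ, (∀ m ∈ E, 1 ≤ m) → 0 < upperDensity E →
        Thick (returnSet (fun t => t ^ (3 / 2 : ℝ)) E ∩
          returnSet (fun t => α * t ^ (3 / 2 : ℝ) + t) E) := by
  refine ⟨exists_set, ?_⟩
  intro h
  obtain ⟨E, hE1, hE, L, hL⟩ := exists_set (Real.sqrt 2)
  obtain ⟨a, -, ha⟩ := h (Real.sqrt 2) irrational_sqrt_two E hE1 hE L
  obtain ⟨i, hi, hni⟩ := hL a
  exact hni (ha i hi)
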